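import Pool.Agent.S19386

/-! Backward (Loynes) construction of the limit law of a monotone recursion driven by the
coins of the sample space `Om` with the measure `P`. -/

set_option autoImplicit false

namespace Pool.Agent.H76.QW

open MeasureTheory ProbabilityTheory Filter Topology
open Pool.Agent.S19386 (Om P coin)

variable {k : ℕ}

/-- The forward recursion: the coin of customer `n` acts last. -/
def F (G : Bool → (Fin k → ℝ) → (Fin k → ℝ)) : ℕ → Om → Fin k → ℝ
  | 0, _ => 0
  | n+1, ω => G (ω (Sum.inr n)) (F G n ω)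

/-- The forward recursion as a function of a coin sequence. -/
def Fs (G : Bool → (Fin k → ℝ) → (Fin k → ℝ)) : ℕ → (ℕ → Bool) → Fin k → ℝ
  | 0, _ => 0
  | n+1, b => G (b n) (Fs G n b)

/-- The backward recursion: the first coin acts last. -/
def Bs (G : Bool → (Fin k → ℝ) → (Fin k → ℝ)) : ℕ → (ℕ → Bool) → Fin k → ℝ
  | 0, _ => 0
  | n+1, b => G (b 0) (Bs G n (fun i => b (i+1)))

theorem F_eq_Fs (G : Bool → (Fin k → ℝ) → (Fin k → ℝ)) (n : ℕ) (ω : Om) :
    F G n ω = Fs G n (fun i => ω (Sum.inr i)) := by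
  induction n with
  | zero => rfl
  | succ n ih => simp only [F, Fs]; rw [ih]

theorem Bs_congr (G : Bool → (Fin k → ℝ) → (Fin k → ℝ)) (n : ℕ) (b c : ℕ → Bool)
    (h : ∀ i < n, b i = c i) : Bs G n b = Bs G n c := by
  induction n generalizing b c with
  | zero => rfl
  | succ n ih =>
    simp only [Bs]
    rw [h 0 (Nat.succ_pos n), ih (fun i => b (i+1)) (fun i => c (i+1))
      (fun i hi => h (i+1) (by omega))]

theorem Fs_eq_Bs (G : Bool → (Fin k → ℝ) → (Fin k → ℝ)) (n : ℕ) (b : ℕ → Bool) :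
    Fs G n b = Bs G n (fun i => b (n - 1 - i)) := by
  induction n with
  | zero => rfl
  | succ n ih =>
    simp only [Fs, Bs]
    rw [ih]
    have h1 : (n + 1 - 1 - 0 : ℕ) = n := by omega
    rw [h1]
    congr 1
    apply Bs_congr
    intro i hi
    congr 1
    omega

theorem Bs_mono (G : Bool → (Fin k → ℝ) → (Fin k → ℝ)) (hm : ∀ b, Monotone (G b))
    (h0 : ∀ b, 0 ≤ G b 0) (n : ℕ) (b : ℕ → Bool) : Bs G n b ≤ Bs G (n+1) b := by
  induction n generalizing b with
  | zero => exact h0 (b 0)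
  | succ n ih =>
    show G (b 0) (Bs G n (fun i => b (i+1))) ≤ G (b 0) (Bs G (n+1) (fun i => b (i+1)))
    exact hm _ (ih _)

theorem Bs_nonneg (G : Bool → (Fin k → ℝ) → (Fin k → ℝ)) (hm : ∀ b, Monotone (G b))
    (h0 : ∀ b, 0 ≤ G b 0) (n : ℕ) (b : ℕ → Bool) : 0 ≤ Bs G n b := by
  induction n with
  | zero => exact le_rfl
  | succ n ih => exact le_trans ih (Bs_mono G hm h0 n b)

/-- The reversal of the first `n` indices. -/
def rv (n i : ℕ) : ℕ := if i < n then n - 1 - i else i

theorem rv_inj (n : ℕ) : Function.Injective (rv n) := by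
  intro i j h
  unfold rv at h
  split_ifs at h <;> omega

/-- The reversal on the index set of the sample space. -/
def rvs (n : ℕ) : ℕ ⊕ ℕ → ℕ ⊕ ℕ := Sum.map id (rv n)

theorem rvs_inj (n : ℕ) : Function.Injective (rvs n) :=
  Sum.map_injective.mpr ⟨Function.injective_id, rv_inj n⟩

theorem measurable_rev (n : ℕ) : Measurable (fun (ω : Om) (i : ℕ ⊕ ℕ) => ω (rvs n i)) := by
  rw [measurable_pi_iff]
  intro i
  exact measurable_pi_apply _

theorem map_rev (n : ℕ) : P.map (fun (ω : Om) (i : ℕ ⊕ ℕ) => ω (rvs n i)) = P :=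
  Measure.map_infinitePi_infinitePi_of_inj (P := fun _ : ℕ ⊕ ℕ => coin) (rvs_inj n)

/-- The backward recursion on the sample space. -/
def Bw (G : Bool → (Fin k → ℝ) → (Fin k → ℝ)) (n : ℕ) (ω : Om) : Fin k → ℝ :=
  Bs G n (fun i => ω (Sum.inr i))

theorem F_eq_Bw (G : Bool → (Fin k → ℝ) → (Fin k → ℝ)) (n : ℕ) (ω : Om) :
    F G n ω = Bw G n (fun i => ω (rvs n i)) := by
  rw [F_eq_Fs, Fs_eq_Bs]
  unfold Bw
  apply Bs_congr
  intro i hi
  simp only [rvs, Sum.map_inr, rv, hi, if_true]

theorem Bw_eq_F (G : Bool → (Fin k → ℝ) → (Fin k → ℝ)) (n : ℕ) (ω : Om) :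
    Bw G n ω = F G n (fun i => ω (rvs n i)) := by
  rw [F_eq_Bw]
  unfold Bw
  apply Bs_congr
  intro i hi
  have h1 : n - 1 - i < n := by omega
  have h2 : n - 1 - (n - 1 - i) = i := by omega
  simp only [rvs, Sum.map_inr, rv, hi, if_true, h1, h2]

theorem measurable_F (G : Bool → (Fin k → ℝ) → (Fin k → ℝ)) (hG : ∀ b, Measurable (G b))
    (n : ℕ) : Measurable (F G n) := by
  induction n with
  | zero => exact measurable_const
  | succ n ih =>
    have h : F G (n+1) = fun ω => if ω (Sum.inr n) = true then G true (F G n ω)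
        else G false (F G n ω) := by
      funext ω
      simp only [F]
      cases hb : ω (Sum.inr n) <;> simp
    rw [h]
    refine Measurable.ite ?_ ((hG true).comp ih) ((hG false).comp ih)
    exact (measurable_pi_apply (Sum.inr n) : Measurable (fun ω : Om => ω (Sum.inr n)))
      (measurableSet_singleton true)

theorem measurable_Bw (G : Bool → (Fin k → ℝ) → (Fin k → ℝ)) (hG : ∀ b, Measurable (G b))
    (n : ℕ) : Measurable (Bw G n) := by
  have h : Bw G n = F G n ∘ (fun (ω : Om) (i : ℕ ⊕ ℕ) => ω (rvs n i)) := by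
    funext ω
    exact Bw_eq_F G n ω
  rw [h]
  exact (measurable_F G hG n).comp (measurable_rev n)

theorem lintegral_F (G : Bool → (Fin k → ℝ) → (Fin k → ℝ)) (hG : ∀ b, Measurable (G b))
    (n : ℕ) (g : (Fin k → ℝ) → ENNReal) (hg : Measurable g) :
    ∫⁻ ω, g (F G n ω) ∂P = ∫⁻ ω, g (Bw G n ω) ∂P := by
  have hm : Measurable (fun ω : Om => g (Bw G n ω)) := hg.comp (measurable_Bw G hG n)
  conv_rhs => rw [← map_rev n]
  rw [lintegral_map hm (measurable_rev n)]
  simp only [F_eq_Bw]

theorem integral_F (G : Bool → (Fin k → ℝ) → (Fin k → ℝ)) (hG : ∀ b, Measurable (G b))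
    (n : ℕ) (g : (Fin k → ℝ) → ℝ) (hg : Measurable g) :
    ∫ ω, g (F G n ω) ∂P = ∫ ω, g (Bw G n ω) ∂P := by
  have hm : Measurable (fun ω : Om => g (Bw G n ω)) := hg.comp (measurable_Bw G hG n)
  conv_rhs => rw [← map_rev n]
  rw [integral_map (measurable_rev n).aemeasurable hm.aestronglyMeasurable]
  simp only [F_eq_Bw]

/-- **Loynes' construction.** A monotone recursion started at zero whose coordinates have
uniformly bounded means converges in distribution, and the coordinate means of the limit law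
are the suprema of the coordinate means. -/
theorem loynes (G : Bool → (Fin k → ℝ) → (Fin k → ℝ)) (hm : ∀ b, Monotone (G b))
    (h0 : ∀ b, 0 ≤ G b 0) (hG : ∀ b, Measurable (G b)) (C : ENNReal) (hC : C < ⊤)
    (hbd : ∀ n i, ∫⁻ ω, ENNReal.ofReal (F G n ω i) ∂P ≤ C) :
    ∃ π : Measure (Fin k → ℝ), IsProbabilityMeasure π ∧
      (∀ f : BoundedContinuousFunction (Fin k → ℝ) ℝ,
        Tendsto (fun n => ∫ ω, f (F G n ω) ∂P) atTop (𝓝 (∫ x, f x ∂π))) ∧
      ∀ i, ∫⁻ x, ENNReal.ofReal (x i) ∂π = ⨆ n, ∫⁻ ω, ENNReal.ofReal (F G n ω i) ∂P := by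
  classical
  set L : Fin k → Om → ENNReal := fun i ω => ⨆ n, ENNReal.ofReal (Bw G n ω i) with hL
  have hcoord : ∀ i : Fin k, Measurable (fun x : Fin k → ℝ => ENNReal.ofReal (x i)) := fun i =>
    ENNReal.measurable_ofReal.comp (measurable_pi_apply i)
  have hmB : ∀ n i, Measurable (fun ω => ENNReal.ofReal (Bw G n ω i)) := fun n i =>
    (hcoord i).comp (measurable_Bw G hG n)
  have hmono : ∀ i ω, Monotone (fun n => ENNReal.ofReal (Bw G n ω i)) := by
    intro i ω
    refine monotone_nat_of_le_succ (fun n => ENNReal.ofReal_le_ofReal ?_)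
    exact Bs_mono G hm h0 n _ i
  have hLm : ∀ i, Measurable (L i) := fun i => Measurable.iSup (fun n => hmB n i)
  have hLint : ∀ i, ∫⁻ ω, L i ω ∂P = ⨆ n, ∫⁻ ω, ENNReal.ofReal (F G n ω i) ∂P := by
    intro i
    rw [hL]
    simp only
    rw [lintegral_iSup (fun n => hmB n i) (fun a b hab ω => hmono i ω hab)]
    congr 1
    funext n
    exact (lintegral_F G hG n _ (hcoord i)).symm
  have hLtop : ∀ i, ∀ᵐ ω ∂P, L i ω < ⊤ := by
    intro i
    refine ae_lt_top (hLm i) ?_
    rw [hLint i]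
    exact ne_of_lt (lt_of_le_of_lt (iSup_le (fun n => hbd n i)) hC)
  have hall : ∀ᵐ ω ∂P, ∀ i, L i ω < ⊤ := ae_all_iff.mpr hLtop
  set Z : Om → Fin k → ℝ := fun ω i => (L i ω).toReal with hZ
  have hZm : Measurable Z := by
    rw [measurable_pi_iff]
    intro i
    exact (hLm i).ennreal_toReal
  have hconv : ∀ᵐ ω ∂P, Tendsto (fun n => Bw G n ω) atTop (𝓝 (Z ω)) := by
    filter_upwards [hall] with ω hω
    rw [tendsto_pi_nhds]
    intro i
    have h1 : Tendsto (fun n => ENNReal.ofReal (Bw G n ω i)) atTop (𝓝 (L i ω)) :=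
      tendsto_atTop_iSup (hmono i ω)
    have h2 := (ENNReal.tendsto_toReal (hω i).ne).comp h1
    refine h2.congr (fun n => ?_)
    simp only [Function.comp]
    exact ENNReal.toReal_ofReal (Bs_nonneg G hm h0 n _ i)
  refine ⟨P.map Z, Measure.isProbabilityMeasure_map hZm.aemeasurable, ?_, ?_⟩
  · intro f
    rw [integral_map hZm.aemeasurable f.continuous.measurable.aestronglyMeasurable]
    have h1 : (fun n => ∫ ω, f (F G n ω) ∂P) = fun n => ∫ ω, f (Bw G n ω) ∂P := by
      funext n
      exact integral_F G hG n f f.continuous.measurable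
    rw [h1]
    refine tendsto_integral_of_dominated_convergence (fun _ => ‖f‖) ?_ ?_ ?_ ?_
    · intro n
      exact (f.continuous.measurable.comp (measurable_Bw G hG n)).aestronglyMeasurable
    · exact integrable_const _
    · intro n
      exact Eventually.of_forall (fun ω => f.norm_coe_le_norm _)
    · filter_upwards [hconv] with ω hω
      exact (f.continuous.tendsto _).comp hω
  · intro i
    rw [lintegral_map (hcoord i) hZm, ← hLint i]
    refine lintegral_congr_ae ?_
    filter_upwards [hall] with ω hω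
    simp only [hZ]
    exact ENNReal.ofReal_toReal (hω i).ne

end Pool.Agent.H76.QW
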